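import Pool.Agent.KTK.Stmts2

/-!
# A summable series (row GRW of squad KTK)

Problem MP_b2962a_an.
-/

set_option autoImplicit false

namespace Pool.Agent.KTK.H47

open Pool.Agent.PRT
open Pool.Agent.KTK

/-- row GRW -/
theorem grw : GrwStmt := by
  intro B hB h1 hg
  have hpos : ∀ j, (0 : ℝ) < B j := fun j => by exact_mod_cast h1 j
  have hsq : ∀ j, 0 < Real.sqrt (B j) := fun j => Real.sqrt_pos.2 (hpos j)
  -- the comparison series
  have hS : Summable fun j => 4 / Real.sqrt (B j) := by
    refine summable_of_ratio_norm_eventually_le (r := 1 / 2) (by norm_num) ?_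
    filter_upwards [Filter.eventually_ge_atTop 192] with j hj
    have hBj : (192 : ℝ) ≤ B j := by exact_mod_cast hj.trans hB.le_apply
    have h2 := Real.pow_div_factorial_le_exp (Real.sqrt (B j)) (hsq j).le 4
    have h3 : Real.sqrt (B j) ^ 4 = (B j : ℝ) ^ 2 := by
      rw [show (4 : ℕ) = 2 * 2 by norm_num, pow_mul, Real.sq_sqrt (hpos j).le]
    rw [h3] at h2
    have h4 : ((Nat.factorial 4 : ℕ) : ℝ) = 24 := by norm_num [Nat.factorial]
    rw [h4] at h2
    have h5 : 4 * (B j : ℝ) ≤ B (j + 1) := by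
      have := hg j
      nlinarith
    have h6 : 2 * Real.sqrt (B j) ≤ Real.sqrt (B (j + 1)) := by
      apply Real.le_sqrt_of_sq_le
      rw [mul_pow, Real.sq_sqrt (hpos j).le]
      linarith
    rw [Real.norm_of_nonneg (by positivity), Real.norm_of_nonneg (by positivity)]
    have h7 := hsq j
    have h8 := hsq (j + 1)
    rw [div_le_iff₀ h8]
    calc (4 : ℝ) = 1 / 2 * (4 / Real.sqrt (B j)) * (2 * Real.sqrt (B j)) := by
          field_simp
      _ ≤ 1 / 2 * (4 / Real.sqrt (B j)) * Real.sqrt (B (j + 1)) := by gcongr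
  refine Summable.of_nonneg_of_le (fun j => ?_) (fun j => ?_) hS
  · have : (1 : ℝ) ≤ B j := by exact_mod_cast h1 j
    have h := Real.log_nonneg (show (1 : ℝ) ≤ 2 * B j by linarith)
    positivity
  · have hb := hpos j
    have h2 : Real.log (2 * B j) ≤ 4 * Real.sqrt (B j) := by
      have e : (2 * B j : ℝ) = 2 * (Real.sqrt (B j) * Real.sqrt (B j)) := by
        rw [Real.mul_self_sqrt hb.le]
      have h3 := Real.log_le_sub_one_of_pos (hsq j)
      have h4 := Real.log_le_sub_one_of_pos (show (0 : ℝ) < 2 by norm_num)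
      rw [e, Real.log_mul (by norm_num) (by positivity), Real.log_mul (hsq j).ne' (hsq j).ne']
      have h5 := hsq j
      linarith
    rw [div_le_div_iff₀ hb (hsq j)]
    calc Real.log (2 * B j) * Real.sqrt (B j) ≤ 4 * Real.sqrt (B j) * Real.sqrt (B j) := by
          gcongr
      _ = 4 * B j := by rw [mul_assoc, Real.mul_self_sqrt hb.le]

end Pool.Agent.KTK.H47
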